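import Pool.Agent.Helper27.Fc96.StepB
import Pool.Agent.Helper96.Fc.Sq

/-!
# Block NO5S: there is no set of five sequences all of whose quadruples have colour 1
-/

open Cardinal Ordinal Set

namespace Pool.Agent.Helper96.Fc

namespace N5s

open Pool.Agent.Helper96.Split

section core

variable {T K : Type} [LinearOrder T] [LinearOrder K]

/-- quadruples of colour 1, abstract form -/
def C4 (br : T → K → Bool) (lvl : K → ℕ) (M : K → K → K → Prop) (a b c d : T) : Prop :=
  (a < b ∧ b < c ∧ b < d ∧ ∃ k₀ k₁ k₂, FD k₀ (br a) (br b) ∧ FD k₀ (br a) (br c) ∧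
    FD k₀ (br a) (br d) ∧ FD k₁ (br b) (br c) ∧ FD k₁ (br b) (br d) ∧ FD k₂ (br c) (br d) ∧
    M k₀ k₁ k₂) ∨
  (((a < c ∧ c < b ∧ b < d) ∨ (a < c ∧ a < d ∧ b < c ∧ b < d)) ∧ ∃ k k₁ k₂,
    FD k (br a) (br c) ∧ FD k (br a) (br d) ∧ FD k (br b) (br c) ∧ FD k (br b) (br d) ∧
    FD k₁ (br a) (br b) ∧ FD k₂ (br c) (br d) ∧ (¬ c < b → lvl k₁ < lvl k₂))

variable {br : T → K → Bool} {lvl : K → ℕ} {M : K → K → K → Prop}

theorem ne_of_FD {k : K} {x y : T} (h : FD k (br x) (br y)) : x ≠ y := by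
  rintro rfl
  exact h.2 rfl

/-- quadruples `p | x | y, z` -/
theorem cat_core {p x y z : T} {j₀ j₁ j₂ : K}
    (g1 : FD j₀ (br p) (br x)) (g2 : FD j₀ (br p) (br y)) (g3 : FD j₀ (br p) (br z))
    (g4 : FD j₁ (br x) (br y)) (g5 : FD j₁ (br x) (br z)) (g6 : FD j₂ (br y) (br z))
    (h : ∃ a b c d, ({p, x, y, z} : Finset T) = {a, b, c, d} ∧ C4 br lvl M a b c d) :
    p < x ∧ x < y ∧ x < z ∧ M j₀ j₁ j₂ := by
  obtain ⟨a, b, c, d, he, hc⟩ := h
  have l01 : j₀ < j₁ := g1.lt_of g2 g4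
  have l12 : j₁ < j₂ := g4.lt_of g5 g6
  have hall : ∀ t ∈ ({a, b, c, d} : Finset T), t ≠ p → FD j₀ (br p) (br t) := by
    intro t ht htp
    rw [← he] at ht
    simp only [Finset.mem_insert, Finset.mem_singleton] at ht
    rcases ht with rfl | rfl | rfl | rfl
    · exact absurd rfl htp
    · exact g1
    · exact g2
    · exact g3
  have hall2 : ∀ t ∈ ({a, b, c, d} : Finset T), t ≠ p → t ≠ x → FD j₁ (br x) (br t) := by
    intro t ht htp htx
    rw [← he] at ht
    simp only [Finset.mem_insert, Finset.mem_singleton] at ht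
    rcases ht with rfl | rfl | rfl | rfl
    · exact absurd rfl htp
    · exact absurd rfl htx
    · exact g4
    · exact g5
  have hp : p = a ∨ p = b ∨ p = c ∨ p = d := by
    have : p ∈ ({a, b, c, d} : Finset T) := by rw [← he]; simp
    simpa using this
  have hx : x = a ∨ x = b ∨ x = c ∨ x = d := by
    have : x ∈ ({a, b, c, d} : Finset T) := by rw [← he]; simp
    simpa using this
  have hy : y = a ∨ y = b ∨ y = c ∨ y = d := by
    have : y ∈ ({a, b, c, d} : Finset T) := by rw [← he]; simp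
    simpa using this
  have hz : z = a ∨ z = b ∨ z = c ∨ z = d := by
    have : z ∈ ({a, b, c, d} : Finset T) := by rw [← he]; simp
    simpa using this
  have npx := ne_of_FD g1
  have npy := ne_of_FD g2
  have npz := ne_of_FD g3
  have nxy := ne_of_FD g4
  have nxz := ne_of_FD g5
  have nyz := ne_of_FD g6
  rcases hc with ⟨o1, o2, o3, k₀, k₁, k₂, f1, f2, f3, f4, f5, f6, hM⟩ |
    ⟨-, k, k₁, k₂, f1, f2, f3, f4, f5, f6, -⟩
  · have nab := ne_of_FD f1
    have nac := ne_of_FD f2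
    have nad := ne_of_FD f3
    have nbc := ne_of_FD f4
    have nbd := ne_of_FD f5
    have ncd := ne_of_FD f6
    have l1 : k₀ < k₁ := f1.lt_of f2 f4
    have l2 : k₁ < k₂ := f4.lt_of f5 f6
    have hpa : p = a := by
      rcases hp with rfl | rfl | rfl | rfl
      · rfl
      · exfalso
        have e1 := (hall a (by simp) nab).unique f1.symm
        have e2 := (hall c (by simp) nbc.symm).unique f4
        exact absurd (e1.symm.trans e2) l1.ne
      · exfalso
        have e1 := (hall a (by simp) nac).unique f2.symm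
        have e2 := (hall b (by simp) nbc).unique f4.symm
        exact absurd (e1.symm.trans e2) l1.ne
      · exfalso
        have e1 := (hall a (by simp) nad).unique f3.symm
        have e2 := (hall b (by simp) nbd).unique f5.symm
        exact absurd (e1.symm.trans e2) l1.ne
    subst hpa
    have hxb : x = b := by
      rcases hx with rfl | rfl | rfl | rfl
      · exact absurd rfl npx
      · rfl
      · exfalso
        have e1 := (hall2 b (by simp) nab.symm nbc).unique f4.symm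
        have e2 := (hall2 d (by simp) nad.symm ncd.symm).unique f6
        exact absurd (e1.symm.trans e2) l2.ne
      · exfalso
        have e1 := (hall2 b (by simp) nab.symm nbd).unique f5.symm
        have e2 := (hall2 c (by simp) nac.symm ncd).unique f6.symm
        exact absurd (e1.symm.trans e2) l2.ne
    subst hxb
    have e0 := g1.unique f1
    subst e0
    rcases hy with rfl | rfl | rfl | rfl
    · exact absurd rfl npy
    · exact absurd rfl nxy
    · have e1 := g4.unique f4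
      subst e1
      rcases hz with rfl | rfl | rfl | rfl
      · exact absurd rfl npz
      · exact absurd rfl nxz
      · exact absurd rfl nyz
      · have e2 := g6.unique f6
        subst e2
        exact ⟨o1, o2, o3, hM⟩
    · have e1 := g4.unique f5
      subst e1
      rcases hz with rfl | rfl | rfl | rfl
      · exact absurd rfl npz
      · exact absurd rfl nxz
      · have e2 := g6.unique f6.symm
        subst e2
        exact ⟨o1, o3, o2, hM⟩
      · exact absurd rfl nyz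
  · exfalso
    have nac := ne_of_FD f1
    have nad := ne_of_FD f2
    have nbc := ne_of_FD f3
    have nbd := ne_of_FD f4
    have nab := ne_of_FD f5
    have ncd := ne_of_FD f6
    rcases hp with rfl | rfl | rfl | rfl
    · exact (hall c (by simp) nac.symm).no3 (hall b (by simp) nab.symm)
        ((hall c (by simp) nac.symm).unique f1 ▸ f3.symm)
    · exact (hall c (by simp) nbc.symm).no3 (hall a (by simp) nab)
        ((hall c (by simp) nbc.symm).unique f3 ▸ f1.symm)
    · exact (hall a (by simp) nac).no3 (hall d (by simp) ncd.symm)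
        ((hall a (by simp) nac).unique f1.symm ▸ f2)
    · exact (hall a (by simp) nad).no3 (hall c (by simp) ncd)
        ((hall a (by simp) nad).unique f2.symm ▸ f1)

/-- quadruples `p, q | x, y` with `p` and `q` below `x` and `y` -/
theorem bal_core {p q x y : T} {j₀ j₁ j₂ : K}
    (g1 : FD j₀ (br p) (br x)) (g2 : FD j₀ (br p) (br y)) (g3 : FD j₀ (br q) (br x))
    (g4 : FD j₀ (br q) (br y)) (g5 : FD j₁ (br p) (br q)) (g6 : FD j₂ (br x) (br y))
    (hpx : p < x) (hpy : p < y) (hqx : q < x) (hqy : q < y)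
    (h : ∃ a b c d, ({p, q, x, y} : Finset T) = {a, b, c, d} ∧ C4 br lvl M a b c d) :
    lvl j₁ < lvl j₂ := by
  obtain ⟨a, b, c, d, he, hc⟩ := h
  have l01 : j₀ < j₁ := g1.symm.lt_of g3.symm g5
  have l02 : j₀ < j₂ := g1.lt_of g2 g6
  have npx := ne_of_FD g1
  have npy := ne_of_FD g2
  have nqx := ne_of_FD g3
  have nqy := ne_of_FD g4
  have npq := ne_of_FD g5
  have nxy := ne_of_FD g6
  have hall : ∀ t ∈ ({a, b, c, d} : Finset T), t ≠ p → t ≠ q →
      FD j₀ (br p) (br t) ∧ FD j₀ (br q) (br t) ∧ p < t ∧ q < t := by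
    intro t ht htp htq
    rw [← he] at ht
    simp only [Finset.mem_insert, Finset.mem_singleton] at ht
    rcases ht with rfl | rfl | rfl | rfl
    · exact absurd rfl htp
    · exact absurd rfl htq
    · exact ⟨g1, g3, hpx, hqx⟩
    · exact ⟨g2, g4, hpy, hqy⟩
  have hall2 : ∀ t ∈ ({a, b, c, d} : Finset T), ∀ t' ∈ ({a, b, c, d} : Finset T), t ≠ p → t ≠ q →
      t' ≠ p → t' ≠ q → t ≠ t' → FD j₂ (br t) (br t') := by
    intro t ht t' ht' htp htq htp' htq' htt'
    rw [← he] at ht ht'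
    simp only [Finset.mem_insert, Finset.mem_singleton] at ht ht'
    rcases ht with rfl | rfl | rfl | rfl
    · exact absurd rfl htp
    · exact absurd rfl htq
    · rcases ht' with rfl | rfl | rfl | rfl
      · exact absurd rfl htp'
      · exact absurd rfl htq'
      · exact absurd rfl htt'
      · exact g6
    · rcases ht' with rfl | rfl | rfl | rfl
      · exact absurd rfl htp'
      · exact absurd rfl htq'
      · exact g6.symm
      · exact absurd rfl htt'
  have hp : p = a ∨ p = b ∨ p = c ∨ p = d := by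
    have : p ∈ ({a, b, c, d} : Finset T) := by rw [← he]; simp
    simpa using this
  have hq : q = a ∨ q = b ∨ q = c ∨ q = d := by
    have : q ∈ ({a, b, c, d} : Finset T) := by rw [← he]; simp
    simpa using this
  have hx : x = a ∨ x = b ∨ x = c ∨ x = d := by
    have : x ∈ ({a, b, c, d} : Finset T) := by rw [← he]; simp
    simpa using this
  rcases hc with ⟨o1, o2, o3, k₀, k₁, k₂, f1, f2, f3, f4, f5, f6, hM⟩ |
    ⟨ho, k, k₁, k₂, f1, f2, f3, f4, f5, f6, hlv⟩
  · exfalso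
    -- every point except `a` splits from `a` at `k₀`
    have hA : ∀ t ∈ ({p, q, x, y} : Finset T), t ≠ a → FD k₀ (br a) (br t) := by
      intro t ht hta
      rw [he] at ht
      simp only [Finset.mem_insert, Finset.mem_singleton] at ht
      rcases ht with rfl | rfl | rfl | rfl
      · exact absurd rfl hta
      · exact f1
      · exact f2
      · exact f3
    have ha : a = p ∨ a = q ∨ a = x ∨ a = y := by
      have : a ∈ ({p, q, x, y} : Finset T) := by rw [he]; simp
      simpa using this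
    rcases ha with rfl | rfl | rfl | rfl
    · have e1 := (hA q (by simp) npq.symm).unique g5
      have e2 := (hA x (by simp) npx.symm).unique g1
      exact absurd (e2.symm.trans e1) l01.ne
    · have e1 := (hA p (by simp) npq).unique g5.symm
      have e2 := (hA x (by simp) nqx.symm).unique g3
      exact absurd (e2.symm.trans e1) l01.ne
    · have e1 := (hA y (by simp) nxy.symm).unique g6
      have e2 := (hA p (by simp) npx).unique g1.symm
      exact absurd (e2.symm.trans e1) l02.ne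
    · have e1 := (hA x (by simp) nxy).unique g6.symm
      have e2 := (hA p (by simp) npy).unique g2.symm
      exact absurd (e2.symm.trans e1) l02.ne
  · have nac := ne_of_FD f1
    have nad := ne_of_FD f2
    have nbc := ne_of_FD f3
    have nbd := ne_of_FD f4
    have nab := ne_of_FD f5
    have ncd := ne_of_FD f6
    have l1 : k < k₁ := f1.symm.lt_of f3.symm f5
    have l2 : k < k₂ := f1.lt_of f2 f6
    have oac : a < c := by rcases ho with ho | ho <;> exact ho.1
    rcases hp with rfl | rfl | rfl | rfl <;> rcases hq with rfl | rfl | rfl | rfl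
    · exact absurd rfl npq
    · -- `p = a`, `q = b`
      have hcb : ¬ c < q := (hall c (by simp) nac.symm nbc.symm).2.2.2.asymm
      have e1 := g5.unique f5
      have e2 := (hall2 c (by simp) d (by simp) nac.symm nbc.symm nad.symm nbd.symm ncd).unique f6
      rw [e1, e2]
      exact hlv hcb
    · exfalso
      have e1 := (hall b (by simp) nab.symm nbc).1.unique f5
      have e2 := g5.unique f1
      rw [e1, e2] at l01
      exact absurd l1 l01.asymm
    · exfalso
      have e1 := (hall b (by simp) nab.symm nbd).1.unique f5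
      have e2 := g5.unique f2
      rw [e1, e2] at l01
      exact absurd l1 l01.asymm
    · have hcb : ¬ c < p := (hall c (by simp) nbc.symm nac.symm).2.2.1.asymm
      have e1 := g5.unique f5.symm
      have e2 := (hall2 c (by simp) d (by simp) nbc.symm nac.symm nbd.symm nad.symm ncd).unique f6
      rw [e1, e2]
      exact hlv hcb
    · exact absurd rfl npq
    · exfalso
      have e1 := (hall a (by simp) nab nac).1.unique f5.symm
      have e2 := g5.unique f3
      rw [e1, e2] at l01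
      exact absurd l1 l01.asymm
    · exfalso
      have e1 := (hall a (by simp) nab nad).1.unique f5.symm
      have e2 := g5.unique f4
      rw [e1, e2] at l01
      exact absurd l1 l01.asymm
    · exfalso
      have e1 := (hall b (by simp) nbc nab.symm).2.1.unique f5
      have e2 := g5.unique f1.symm
      rw [e1, e2] at l01
      exact absurd l1 l01.asymm
    · exfalso
      have e1 := (hall a (by simp) nac nab).2.1.unique f5.symm
      have e2 := g5.unique f3.symm
      rw [e1, e2] at l01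
      exact absurd l1 l01.asymm
    · exact absurd rfl npq
    · exfalso
      exact absurd oac (hall a (by simp) nac nad).2.2.1.asymm
    · exfalso
      have e1 := (hall b (by simp) nbd nab.symm).2.1.unique f5
      have e2 := g5.unique f2.symm
      rw [e1, e2] at l01
      exact absurd l1 l01.asymm
    · exfalso
      have e1 := (hall a (by simp) nad nab).2.1.unique f5.symm
      have e2 := g5.unique f4.symm
      rw [e1, e2] at l01
      exact absurd l1 l01.asymm
    · exfalso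
      exact absurd oac (hall a (by simp) nad nac).2.2.2.asymm
    · exact absurd rfl npq

/-- the root of a finite set of branches -/
theorem root [WellFoundedLT K] {S : Set T} (hinj : Set.InjOn br S) {x₀ y₀ : T}
    (hx₀ : x₀ ∈ S) (hy₀ : y₀ ∈ S) (hne : x₀ ≠ y₀) :
    ∃ k₀, (∃ x ∈ S, ∃ y ∈ S, FD k₀ (br x) (br y)) ∧
      (∀ x ∈ S, ∀ y ∈ S, br x k₀ ≠ br y k₀ → FD k₀ (br x) (br y)) ∧
      (∀ x ∈ S, ∀ y ∈ S, x ≠ y → br x k₀ = br y k₀ → ∃ k, k₀ < k ∧ FD k (br x) (br y)) := by
  obtain ⟨t₀, ht₀⟩ := exists_fd (hinj.ne hx₀ hy₀ hne)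
  obtain ⟨k₀, ⟨x, hx, y, hy, hxy⟩, hmin⟩ := (wellFounded_lt (α := K)).has_min
    {k | ∃ x ∈ S, ∃ y ∈ S, FD k (br x) (br y)} ⟨t₀, x₀, hx₀, y₀, hy₀, ht₀⟩
  have hag : ∀ x ∈ S, ∀ y ∈ S, ∀ u < k₀, br x u = br y u := by
    intro x hx y hy u hu
    by_contra hcon
    have hne : br x ≠ br y := fun h => hcon (congrFun h u)
    obtain ⟨t, ht⟩ := exists_fd hne
    have h1 : ¬ t < k₀ := hmin t ⟨x, hx, y, hy, ht⟩
    exact hcon (ht.1 u (hu.trans_le (not_lt.1 h1)))
  refine ⟨k₀, ⟨x, hx, y, hy, hxy⟩, fun x hx y hy h => ⟨hag x hx y hy, h⟩, ?_⟩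
  intro x hx y hy hne he
  obtain ⟨t, ht⟩ := exists_fd (hinj.ne hx hy hne)
  refine ⟨t, ?_, ht⟩
  have h1 : ¬ t < k₀ := hmin t ⟨x, hx, y, hy, ht⟩
  rcases (not_lt.1 h1).lt_or_eq with h | h
  · exact h
  · subst h
    exact absurd he ht.2

/-- three points: one splits off first -/
theorem three [WellFoundedLT K] {u v w : T} (huv : u ≠ v) (huw : u ≠ w) (hvw : v ≠ w)
    (hinj : Set.InjOn br ({u, v, w} : Set T)) :
    ∃ x y z, x ∈ ({u, v, w} : Set T) ∧ y ∈ ({u, v, w} : Set T) ∧ z ∈ ({u, v, w} : Set T) ∧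
      ∃ k₁ k₂, FD k₁ (br x) (br y) ∧ FD k₁ (br x) (br z) ∧ FD k₂ (br y) (br z) := by
  have mu : u ∈ ({u, v, w} : Set T) := by simp
  have mv : v ∈ ({u, v, w} : Set T) := by simp
  have mw : w ∈ ({u, v, w} : Set T) := by simp
  obtain ⟨k₀, ⟨a, ha, b, hb, hab⟩, h1, h2⟩ := root hinj mu mv huv
  by_cases e1 : br u k₀ = br v k₀
  · obtain ⟨k, -, hk⟩ := h2 u mu v mv huv e1
    by_cases e2 : br u k₀ = br w k₀
    · exfalso
      refine hab.2 ?_
      have hall : ∀ t ∈ ({u, v, w} : Set T), br t k₀ = br u k₀ := by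
        rintro t (rfl | rfl | rfl)
        · rfl
        · exact e1.symm
        · exact e2.symm
      rw [hall a ha, hall b hb]
    · exact ⟨w, u, v, mw, mu, mv, k₀, k, h1 w mw u mu (Ne.symm e2),
        h1 w mw v mv (by rw [← e1]; exact Ne.symm e2), hk⟩
  · by_cases e2 : br u k₀ = br w k₀
    · obtain ⟨k, -, hk⟩ := h2 u mu w mw huw e2
      exact ⟨v, u, w, mv, mu, mw, k₀, k, h1 v mv u mu (Ne.symm e1),
        h1 v mv w mw (by rw [← e2]; exact Ne.symm e1), hk⟩
    · have e3 : br v k₀ = br w k₀ := by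
        revert e1 e2
        cases br u k₀ <;> cases br v k₀ <;> cases br w k₀ <;> simp
      obtain ⟨k, -, hk⟩ := h2 v mv w mw hvw e3
      exact ⟨u, v, w, mu, mv, mw, k₀, k, h1 u mu v mv e1, h1 u mu w mw e2, hk⟩

/-- **There is no complete quintuple**, abstract form. -/
theorem core [WellFoundedLT K] (hlvl : Monotone lvl)
    (hM1 : ∀ a b c d, M a b c → M a b d → M b c d → False)
    (hM2 : ∀ a b c, M a b c → lvl a = lvl b)
    {S : Finset T} (hS : S.card = 5) (hinj : Set.InjOn br (S : Set T))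
    (hcol : ∀ s ⊆ S, s.card = 4 → ∃ a b c d, s = {a, b, c, d} ∧ C4 br lvl M a b c d) :
    False := by
  classical
  obtain ⟨x₀, hx₀, y₀, hy₀, hne⟩ := Finset.one_lt_card.1 (by omega : 1 < S.card)
  obtain ⟨k₀, ⟨a₀, ha₀, b₀, hb₀, hab₀⟩, h1, h2⟩ := root hinj hx₀ hy₀ hne
  have four : ∀ p ∈ S, ∀ x ∈ S, ∀ y ∈ S, ∀ z ∈ S, p ≠ x → p ≠ y → p ≠ z → x ≠ y → x ≠ z →
      y ≠ z → ∃ a b c d, ({p, x, y, z} : Finset T) = {a, b, c, d} ∧ C4 br lvl M a b c d := by
    intro p hp x hx y hy z hz n1 n2 n3 n4 n5 n6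
    refine hcol {p, x, y, z} ?_ (Finset.card_eq_four.2 ⟨p, x, y, z, n1, n2, n3, n4, n5, n6, rfl⟩)
    intro v hv
    simp only [Finset.mem_insert, Finset.mem_singleton] at hv
    rcases hv with rfl | rfl | rfl | rfl <;> assumption
  have cat : ∀ p ∈ S, ∀ x ∈ S, ∀ y ∈ S, ∀ z ∈ S, ∀ j₀ j₁ j₂, FD j₀ (br p) (br x) →
      FD j₀ (br p) (br y) → FD j₀ (br p) (br z) → FD j₁ (br x) (br y) → FD j₁ (br x) (br z) →
      FD j₂ (br y) (br z) → p < x ∧ x < y ∧ x < z ∧ M j₀ j₁ j₂ := by
    intro p hp x hx y hy z hz j₀ j₁ j₂ g1 g2 g3 g4 g5 g6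
    exact cat_core g1 g2 g3 g4 g5 g6 (four p hp x hx y hy z hz (ne_of_FD g1) (ne_of_FD g2)
      (ne_of_FD g3) (ne_of_FD g4) (ne_of_FD g5) (ne_of_FD g6))
  have main : ∀ b : Bool, 1 ≤ (S.filter (fun p => br p k₀ = b)).card →
      (S.filter (fun p => br p k₀ = b)).card ≤ 2 → False := by
    intro b hb1 hb2
    have hsum : (S.filter (fun p => br p k₀ = b)).card +
        (S.filter (fun p => ¬ br p k₀ = b)).card = 5 := by
      rw [Finset.card_filter_add_card_filter_not, hS]
    rcases (by omega : (S.filter (fun p => br p k₀ = b)).card = 1 ∨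
      (S.filter (fun p => br p k₀ = b)).card = 2) with hc | hc
    · obtain ⟨e, he⟩ := Finset.card_eq_one.1 hc
      have me : e ∈ S ∧ br e k₀ = b := by
        have h : e ∈ S.filter (fun p => br p k₀ = b) := by rw [he]; simp
        exact Finset.mem_filter.1 h
      have mQ : ∀ t ∈ S.erase e, t ∈ S ∧ FD k₀ (br e) (br t) := by
        intro t ht
        obtain ⟨hte, htS⟩ := Finset.mem_erase.1 ht
        refine ⟨htS, h1 e me.1 t htS ?_⟩
        rw [me.2]
        intro h
        have : t ∈ S.filter (fun p => br p k₀ = b) := Finset.mem_filter.2 ⟨htS, h.symm⟩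
        rw [he, Finset.mem_singleton] at this
        exact hte this
      obtain ⟨x₁, x₂, x₃, x₄, hQ, hC⟩ := hcol (S.erase e) (Finset.erase_subset _ _)
        (by rw [Finset.card_erase_of_mem me.1, hS])
      have m1 := mQ x₁ (by rw [hQ]; simp)
      have m2 := mQ x₂ (by rw [hQ]; simp)
      have m3 := mQ x₃ (by rw [hQ]; simp)
      have m4 := mQ x₄ (by rw [hQ]; simp)
      rcases hC with ⟨-, -, -, j₀, j₁, j₂, f1, f2, f3, f4, f5, f6, hM⟩ |
        ⟨ho, k, j₁, j₂, f1, f2, f3, f4, f5, f6, -⟩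
      · have c1 := cat e me.1 x₁ m1.1 x₂ m2.1 x₃ m3.1 k₀ j₀ j₁ m1.2 m2.2 m3.2 f1 f2 f4
        have c2 := cat e me.1 x₁ m1.1 x₃ m3.1 x₄ m4.1 k₀ j₀ j₂ m1.2 m3.2 m4.2 f2 f3 f6
        exact hM1 _ _ _ _ c1.2.2.2 c2.2.2.2 hM
      · have oac : x₁ < x₃ := by rcases ho with ho | ho <;> exact ho.1
        have c1 := cat e me.1 x₃ m3.1 x₁ m1.1 x₂ m2.1 k₀ k j₁ m3.2 m1.2 m2.2 f1.symm f3.symm f5
        exact absurd oac c1.2.1.asymm
    · obtain ⟨p, q, hpq, hP⟩ := Finset.card_eq_two.1 hc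
      have mp : p ∈ S ∧ br p k₀ = b := by
        have h : p ∈ S.filter (fun p => br p k₀ = b) := by rw [hP]; simp
        exact Finset.mem_filter.1 h
      have mq : q ∈ S ∧ br q k₀ = b := by
        have h : q ∈ S.filter (fun p => br p k₀ = b) := by rw [hP]; simp
        exact Finset.mem_filter.1 h
      obtain ⟨u, v, w, huv, huw, hvw, hQ⟩ := Finset.card_eq_three.1
        (by omega : (S.filter (fun p => ¬ br p k₀ = b)).card = 3)
      have mQ : ∀ t ∈ ({u, v, w} : Set T), t ∈ S ∧ br t k₀ ≠ b := by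
        intro t ht
        have h : t ∈ S.filter (fun p => ¬ br p k₀ = b) := by
          rw [hQ]
          simpa using ht
        exact Finset.mem_filter.1 h
      obtain ⟨x, y, z, hx, hy, hz, k₁, k₂, f1, f2, f3⟩ := three huv huw hvw
        (hinj.mono fun t ht => (mQ t ht).1)
      have mx := mQ x hx
      have my := mQ y hy
      have mz := mQ z hz
      have gpx := h1 p mp.1 x mx.1 (by rw [mp.2]; exact Ne.symm mx.2)
      have gpy := h1 p mp.1 y my.1 (by rw [mp.2]; exact Ne.symm my.2)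
      have gpz := h1 p mp.1 z mz.1 (by rw [mp.2]; exact Ne.symm mz.2)
      have gqx := h1 q mq.1 x mx.1 (by rw [mq.2]; exact Ne.symm mx.2)
      have gqy := h1 q mq.1 y my.1 (by rw [mq.2]; exact Ne.symm my.2)
      have gqz := h1 q mq.1 z mz.1 (by rw [mq.2]; exact Ne.symm mz.2)
      have c1 := cat p mp.1 x mx.1 y my.1 z mz.1 k₀ k₁ k₂ gpx gpy gpz f1 f2 f3
      have c2 := cat q mq.1 x mx.1 y my.1 z mz.1 k₀ k₁ k₂ gqx gqy gqz f1 f2 f3
      obtain ⟨k₃, hk₃, g⟩ := h2 p mp.1 q mq.1 hpq (mp.2.trans mq.2.symm)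
      have h3 := bal_core gpx gpy gqx gqy g f1 c1.1 (c1.1.trans c1.2.1) c2.1 (c2.1.trans c2.2.1)
        (four p mp.1 q mq.1 x mx.1 y my.1 hpq (ne_of_FD gpx) (ne_of_FD gpy) (ne_of_FD gqx)
          (ne_of_FD gqy) (ne_of_FD f1))
      have h4 := hM2 _ _ _ c1.2.2.2
      have h5 := hlvl hk₃.le
      omega
  -- both sides are nonempty
  have hsum : (S.filter (fun p => br p k₀ = true)).card +
      (S.filter (fun p => br p k₀ = false)).card = 5 := by
    have e : (S.filter (fun p => br p k₀ = false)) = S.filter (fun p => ¬ br p k₀ = true) := by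
      ext v
      simp
    rw [e, Finset.card_filter_add_card_filter_not, hS]
  have h3 : ∀ b : Bool, 1 ≤ (S.filter (fun p => br p k₀ = b)).card := by
    intro b
    rw [Nat.one_le_iff_ne_zero, Finset.card_ne_zero]
    by_cases hb : br a₀ k₀ = b
    · exact ⟨a₀, Finset.mem_filter.2 ⟨ha₀, hb⟩⟩
    · refine ⟨b₀, Finset.mem_filter.2 ⟨hb₀, ?_⟩⟩
      have := hab₀.2
      revert this hb
      cases br a₀ k₀ <;> cases br b₀ k₀ <;> cases b <;> simp
  by_cases h : (S.filter (fun p => br p k₀ = true)).card ≤ 2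
  · exact main true (h3 true) h
  · exact main false (h3 false) (by omega)

end core

/-- the triples of splitting nodes, all types -/
def Mn (q : Pos) (a b c : ℕ ×ₗ Pt) : Prop :=
  ((ofLex a).1 = (ofLex b).1 ∧ (ofLex b).1 = (ofLex c).1 ∧
    TAn q (ofLex a).1 (ofLex a).2 (ofLex b).2 (ofLex c).2) ∨
  ((ofLex a).1 = (ofLex b).1 ∧ TBn q (ofLex a).1 (ofLex c).1 (ofLex a).2 (ofLex b).2)

theorem fact1 (q : Pos) (a b c d : ℕ ×ₗ Pt) (h1 : Mn q a b c) (h2 : Mn q a b d)
    (h3 : Mn q b c d) : False := by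
  obtain ⟨⟨na, ta⟩, rfl⟩ : ∃ x : ℕ × Pt, toLex x = a := ⟨ofLex a, rfl⟩
  obtain ⟨⟨nb, tb⟩, rfl⟩ : ∃ x : ℕ × Pt, toLex x = b := ⟨ofLex b, rfl⟩
  obtain ⟨⟨nc, tc⟩, rfl⟩ : ∃ x : ℕ × Pt, toLex x = c := ⟨ofLex c, rfl⟩
  obtain ⟨⟨nd, td⟩, rfl⟩ : ∃ x : ℕ × Pt, toLex x = d := ⟨ofLex d, rfl⟩
  simp only [Mn, ofLex_toLex] at h1 h2 h3
  rcases h3 with ⟨e1, e2, -, -, δ, b, h4, h5⟩ | ⟨e1, hlt, -, δ, b, ν, h4, h5, h6⟩
  · subst e1 e2
    rcases h2 with ⟨e3, -, -, -, δ', b', h6, h7⟩ | ⟨e3, hlt, -⟩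
    · subst e3
      rcases h1 with ⟨-, -, -, -, δ'', b'', h8, h9⟩ | ⟨-, hlt, -⟩
      · obtain ⟨rfl, rfl⟩ := h6.unique h8
        obtain ⟨rfl, rfl⟩ := h4.unique h9.symm
        have := h5.2.1.unique h7.2.1
        cases b' <;> simp at this
      · omega
    · omega
  · subst e1
    rcases h1 with ⟨e3, -, -, -, δ', b', h7, h8⟩ | ⟨e3, hlt', -⟩
    · subst e3
      rcases h2 with ⟨-, e4, -⟩ | ⟨-, -, -, δ'', b'', ν', h9, h10, h11⟩
      · omega
      · obtain ⟨rfl, rfl⟩ := h9.unique h7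
        obtain ⟨rfl, rfl⟩ := h4.unique h8.symm
        have e3 : ν = ν' := od_inj (h5.trans h10.symm)
        subst e3
        have := h6.unique h11
        cases b'' <;> simp at this
    · omega

/-- the branch of a sequence -/
noncomputable def brs (q : Pos) (c : Sq) (k : ℕ ×ₗ Pt) : Bool :=
  Q2c.brn q (.inr (ofLex k).1) (c.v (ofLex k).1) (ofLex k).2

theorem lex_lt {k : ℕ ×ₗ Pt} {n : ℕ} {t : Pt} (h : k < toLex (n, t)) :
    (ofLex k).1 < n ∨ ((ofLex k).1 = n ∧ (ofLex k).2 < t) := by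
  rw [Prod.Lex.lt_iff] at h
  simpa using h

theorem lex_le {k : ℕ ×ₗ Pt} {n : ℕ} {t : Pt} (h : k ≤ toLex (n, t)) :
    (ofLex k).1 < n ∨ ((ofLex k).1 = n ∧ (ofLex k).2 ≤ t) := by
  rw [Prod.Lex.le_iff] at h
  simpa using h

theorem fd_brs {q : Pos} {n : ℕ} {c d : Sq} {t : Pt} (h : Sp q n c d t) :
    FD (toLex (n, t)) (brs q c) (brs q d) := by
  obtain ⟨h1, h2⟩ := h
  have h3 := Q2c.fd_brn h2
  refine ⟨?_, h3.2⟩
  intro k hk
  rcases lex_lt hk with hk | ⟨hk1, hk2⟩
  · unfold brs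
    rw [h1 _ hk]
  · unfold brs
    rw [hk1]
    exact h3.1 _ hk2

theorem clo_brs {q : Pos} {n : ℕ} {c d : Sq} {t : Pt} (h : Clo q n c d t) :
    ∀ k ≤ toLex (n, t), brs q c k = brs q d k := by
  intro k hk
  rcases lex_le hk with hk | ⟨hk1, hk2⟩
  · unfold brs
    rw [h.1 _ hk]
  · obtain ⟨β, h4, h5⟩ := h.2 _ hk2
    unfold brs
    rw [hk1, Q2c.brn_eq h4, Q2c.brn_eq h5]

theorem exists_Dfn {c d : Sq} (h : c ≠ d) : ∃ n, Dfn n c d := by
  classical
  have hex : ∃ n, c.v n ≠ d.v n := by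
    by_contra hcon
    push Not at hcon
    exact h (Sq.ext' hcon)
  refine ⟨Nat.find hex, fun k hk => ?_, Nat.find_spec hex⟩
  by_contra hcon
  exact Nat.find_min hex hk hcon

theorem Dfn.unique' {n m : ℕ} {c d : Sq} (h : Dfn n c d) (h' : Dfn m c d) : n = m := by
  rcases lt_trichotomy n m with hlt | rfl | hlt
  · exact absurd (h'.1 n hlt) h.2
  · rfl
  · exact absurd (h.1 m hlt) h'.2

end N5s

open N5s Pool.Agent.Helper96.Split

/-- **There is no set of five sequences all of whose quadruples have colour 1.** -/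
theorem no5s (q : Pos) (S : Finset Sq) (hS : S.card = 5)
    (h : ∀ s ⊆ S, s.card = 4 → ∃ a b c d, s = {a, b, c, d} ∧ Col4s q a b c d) : False := by
  classical
  obtain ⟨q', hq', hfd⟩ : ∃ q' ≤ q, ∀ n, ∀ c ∈ S, ∀ d ∈ S, c.v n ≠ d.v n →
      ∃ t, Fd q' (.inr n) (c.v n) (d.v n) t := by
    let Y : Lv → Set Pt := fun i => match i with
      | .inl _ => ∅
      | .inr n => {x | ∃ c ∈ S, c.v n = x}
    obtain ⟨q₂, hq₂, h1, -⟩ := ext_all q Y (by
      rintro (m | m)
      · change #(∅ : Set Pt) < _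
        rw [mk_eq_zero]
        exact rho_pos _
      · have hfin : {x | ∃ c ∈ S, c.v m = x}.Finite := by
          have : {x | ∃ c ∈ S, c.v m = x} = (fun c : Sq => c.v m) '' (S : Set Sq) := by
            ext x
            simp
          rw [this]
          exact S.finite_toSet.image _
        exact (lt_aleph0_iff_set_finite.2 hfin).trans_le (rho_reg _).aleph0_le) (by
      rintro (m | m) x hx
      · exact hx.elim
      · obtain ⟨c, -, rfl⟩ := hx
        exact c.lt m)
    exact ⟨q₂, hq₂, fun n c hc d hd hne => h1 (.inr n) _ ⟨c, hc, rfl⟩ _ ⟨d, hd, rfl⟩ hne⟩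
  -- all splits are decided
  have hsp : ∀ c ∈ S, ∀ d ∈ S, ∀ n, Dfn n c d → ∃ t, Sp q' n c d t := by
    intro c hc d hd n hn
    obtain ⟨t, ht⟩ := hfd n c hc d hd hn.2
    exact ⟨t, hn.1, ht⟩
  have hinj : Set.InjOn (brs q') (S : Set Sq) := by
    intro c hc d hd hcd
    by_contra hne
    obtain ⟨n, hn⟩ := exists_Dfn hne
    obtain ⟨t, ht⟩ := hsp c hc d hd n hn
    exact (fd_brs ht).ne hcd
  refine core (br := brs q') (lvl := fun k => (ofLex k).1) (M := Mn q') ?_ (fact1 q') ?_ hS hinj ?_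
  · intro a b hab
    exact (Prod.Lex.monotone_fst a b hab)
  · rintro a b c (h1 | h1) <;> exact h1.1
  intro s hs hs4
  obtain ⟨a, b, c, d, rfl, hcol⟩ := h s hs hs4
  have ha : a ∈ S := hs (by simp)
  have hb : b ∈ S := hs (by simp)
  have hc : c ∈ S := hs (by simp)
  have hd : d ∈ S := hs (by simp)
  have hcol' := hcol.mono hq'
  obtain ⟨nab, nac, nad, nbc, nbd, ncd⟩ := hcol'.ne
  refine ⟨a, b, c, d, rfl, ?_⟩
  rcases hcol' with ⟨o1, o2, o3, n, t₀, t₁, t₂, h1, h2, h3, h4, h5, h6, h7⟩ |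
    ⟨o1, o2, o3, n, m, t₀, t₁, h1, h2, h3, h4, h5, h6, h7⟩ | ⟨o1, o2, o3, n, t, h1, h2, h3⟩ |
    ⟨o1, o2, o3, o4, n, t, m, m', h1, h2, h3, h4, h5, h6⟩
  · exact Or.inl ⟨o1, o2, o3, _, _, _, fd_brs h1, fd_brs h2, fd_brs h3, fd_brs h4, fd_brs h5,
      fd_brs h6, Or.inl ⟨rfl, rfl, h7⟩⟩
  · obtain ⟨t, ht⟩ := hsp c hc d hd m h6
    exact Or.inl ⟨o1, o2, o3, _, _, _, fd_brs h1, fd_brs h2, fd_brs h3, fd_brs h4, fd_brs h5,
      fd_brs ht, Or.inr ⟨rfl, h7⟩⟩
  · have f1 := fd_brs h1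
    have g1 := clo_brs h2
    have g2 := clo_brs h3
    obtain ⟨m, hm⟩ := exists_Dfn nab
    obtain ⟨m', hm'⟩ := exists_Dfn ncd
    obtain ⟨t₁, ht₁⟩ := hsp a ha b hb m hm
    obtain ⟨t₂, ht₂⟩ := hsp c hc d hd m' hm'
    exact Or.inr ⟨Or.inl ⟨o1, o2, o3⟩, _, _, _, f1, f1.of_agree_right g2, f1.of_agree_left g1,
      (f1.of_agree_right g2).of_agree_left g1, fd_brs ht₁, fd_brs ht₂, fun hn => absurd o2 hn⟩
  · have f1 := fd_brs h1
    have g1 := clo_brs h2
    have g2 := clo_brs h3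
    obtain ⟨t₁, ht₁⟩ := hsp a ha b hb m h4
    obtain ⟨t₂, ht₂⟩ := hsp c hc d hd m' h5
    exact Or.inr ⟨Or.inr ⟨o1, o2, o3, o4⟩, _, _, _, f1, f1.of_agree_right g2, f1.of_agree_left g1,
      (f1.of_agree_right g2).of_agree_left g1, fd_brs ht₁, fd_brs ht₂, fun _ => h6⟩

end Pool.Agent.Helper96.Fc
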